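import Pool.Agent.H447R3.KuC

open CategoryTheory AlgebraicGeometry

universe u v

open Pool.Agent.H914 Pool.Agent.H914.VarClass Pool.Agent.H914.VarClass.Obj Pool.Agent.H447

/-- **Single Kunneth components.** Let `X` be a smooth proper variety of dimension `n` over an
algebraically closed field and `W` a Weil cohomology theory. For each `i`, the projector onto the
even cohomology of `X` and the `i`-th Kunneth component `π` of the diagonal are both algebraic if
and only if there are cycles `z₀` and `z` of codimension `n` on `X × X` such that `z₀` has the same
intersection numbers as the even projector with all cycles of codimension `n` and is a projector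
up to numerical equivalence, and such that `z` has the same intersection numbers as `π` with all
cycles of codimension `n` and with the transpose of `π`. -/
theorem Pool.Agent.Results.MP_4ca46c_ag.SingleComponent.result {k : Type u} [Field k]
    [IsAlgClosed k] {𝒱 : VarClass k} {ops : CycleOps 𝒱} (W : WeilCohomology.{u, v} ops)
    (X : 𝒱.Obj) (i : ℕ) : (SignStd W X ∧ KunnethAt W X i) ↔ (SignNum W X ∧ KunnethNumAt W X i) :=
  ⟨fun h => ⟨sign_iff_num.1 h.1, (component_iff_num h.1 i).1 h.2⟩,
    fun h => ⟨sign_iff_num.2 h.1, (component_iff_num (sign_iff_num.2 h.1) i).2 h.2⟩⟩
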